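import Mathlib
import Pool.Agent.Run7.h163.IM.Iface

/-!
# Pieces BYP, MU1, GALG: the Jacobi weight, integration by parts, linearity
-/

set_option autoImplicit false

open Polynomial Filter Topology MeasureTheory Set

namespace Run7.h587.IM

open Run7.h163.IM

/-- the weight is integrable -/
theorem wt_int {α β : ℝ} (hα : -1 < α) (hβ : -1 < β) :
    IntervalIntegrable (wt α β) volume (-1) 1 := by
  have h1 : IntervalIntegrable (fun t : ℝ => (1 - t) ^ α) volume (-1) 1 := by
    have h := (intervalIntegral.intervalIntegrable_rpow' hα (a := 2) (b := 0)).comp_sub_left 1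
    norm_num at h
    exact h
  have h2 : IntervalIntegrable (fun t : ℝ => (1 + t) ^ β) volume (-1) 1 := by
    have h := (intervalIntegral.intervalIntegrable_rpow' hβ (a := 0) (b := 2)).comp_add_left 1
    norm_num at h
    exact h
  have a1 : IntervalIntegrable (wt α β) volume (-1) 0 := by
    have h := h2.mono_set (show uIcc (-1 : ℝ) 0 ⊆ uIcc (-1) 1 by
      rw [uIcc_of_le (by norm_num), uIcc_of_le (by norm_num)]
      exact Icc_subset_Icc le_rfl (by norm_num))
    refine h.continuousOn_mul (g := fun t : ℝ => (1 - t) ^ α) ?_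
    refine ContinuousOn.rpow_const (by fun_prop) fun t ht => Or.inl ?_
    rw [uIcc_of_le (by norm_num)] at ht
    linarith [ht.2]
  have a2 : IntervalIntegrable (wt α β) volume 0 1 := by
    have h := h1.mono_set (show uIcc (0 : ℝ) 1 ⊆ uIcc (-1) 1 by
      rw [uIcc_of_le (by norm_num), uIcc_of_le (by norm_num)]
      exact Icc_subset_Icc (by norm_num) le_rfl)
    refine h.mul_continuousOn (g := fun t : ℝ => (1 + t) ^ β) ?_
    refine ContinuousOn.rpow_const (by fun_prop) fun t ht => Or.inl ?_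
    rw [uIcc_of_le (by norm_num)] at ht
    linarith [ht.1]
  exact a1.trans a2

/-- the complex weight -/
theorem wtC_int {α β : ℝ} (hα : -1 < α) (hβ : -1 < β) :
    IntervalIntegrable (fun t : ℝ => (wt α β t : ℂ)) volume (-1) 1 :=
  ⟨(wt_int hα hβ).1.ofReal, (wt_int hα hβ).2.ofReal⟩

theorem cw_int {α β : ℝ} (hα : -1 < α) (hβ : -1 < β) {φ : ℝ → ℂ}
    (hφ : ContinuousOn φ (Icc (-1) 1)) :
    IntervalIntegrable (fun t : ℝ => φ t * (wt α β t : ℂ)) volume (-1) 1 := by
  refine (wtC_int hα hβ).continuousOn_mul ?_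
  rwa [uIcc_of_le (by norm_num)]

theorem wt_nonneg {α β t : ℝ} (ht : t ∈ Icc (-1 : ℝ) 1) : 0 ≤ wt α β t :=
  mul_nonneg (Real.rpow_nonneg (by linarith [ht.2]) _) (Real.rpow_nonneg (by linarith [ht.1]) _)

theorem wt_pos {α β t : ℝ} (ht : t ∈ Ioo (-1 : ℝ) 1) : 0 < wt α β t :=
  mul_pos (Real.rpow_pos_of_pos (by linarith [ht.2]) _) (Real.rpow_pos_of_pos (by linarith [ht.1]) _)

/-- integration by parts -/
theorem ibp {α β : ℝ} (hα : -1 < α) (hβ : -1 < β) {φ φ' : ℝ → ℂ}
    (hφ : ContinuousOn φ (Icc (-1) 1)) (hφ' : ContinuousOn φ' (Icc (-1) 1))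
    (hd : ∀ t ∈ Ioo (-1 : ℝ) 1, HasDerivAt φ (φ' t) t) :
    ∫ t in (-1 : ℝ)..1, ((1 - (t : ℂ) ^ 2) * φ' t +
      (((β : ℂ) - α) - ((α : ℂ) + β + 2) * t) * φ t) * (wt α β t : ℂ) = 0 := by
  set W : ℝ → ℝ := fun t => (1 - t) ^ (α + 1) * (1 + t) ^ (β + 1) with hW
  have hWc : ContinuousOn (fun t => (W t : ℂ)) (Icc (-1) 1) := by
    refine Continuous.continuousOn (Complex.continuous_ofReal.comp ?_)
    exact (Continuous.rpow_const (by fun_prop) fun t => Or.inr (by linarith)).mul
      (Continuous.rpow_const (by fun_prop) fun t => Or.inr (by linarith))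
  have hWd : ∀ t ∈ Ioo (-1 : ℝ) 1, HasDerivAt W
      (wt α β t * ((β - α) - (α + β + 2) * t)) t := by
    intro t ht
    have h1 : 0 < 1 - t := by linarith [ht.2]
    have h2 : 0 < 1 + t := by linarith [ht.1]
    have e1 : HasDerivAt (fun t : ℝ => (1 - t) ^ (α + 1)) (-1 * (α + 1) * (1 - t) ^ (α + 1 - 1)) t :=
      ((hasDerivAt_id t).const_sub 1).rpow_const (Or.inl h1.ne')
    have e2 : HasDerivAt (fun t : ℝ => (1 + t) ^ (β + 1)) (1 * (β + 1) * (1 + t) ^ (β + 1 - 1)) t :=
      ((hasDerivAt_id t).const_add 1).rpow_const (Or.inl h2.ne')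
    have e3 := e1.mul e2
    refine e3.congr_deriv ?_
    rw [add_sub_cancel_right, add_sub_cancel_right]
    unfold wt
    have i1 : (1 - t) ^ (α + 1) = (1 - t) ^ α * (1 - t) := by
      rw [Real.rpow_add h1, Real.rpow_one]
    have i2 : (1 + t) ^ (β + 1) = (1 + t) ^ β * (1 + t) := by
      rw [Real.rpow_add h2, Real.rpow_one]
    rw [i1, i2]
    ring
  have hWw : ∀ t ∈ Ioo (-1 : ℝ) 1, W t = (1 - t ^ 2) * wt α β t := by
    intro t ht
    have h1 : 0 < 1 - t := by linarith [ht.2]
    have h2 : 0 < 1 + t := by linarith [ht.1]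
    simp only [hW, wt]
    rw [Real.rpow_add h1, Real.rpow_add h2, Real.rpow_one, Real.rpow_one]
    ring
  have hFd : ∀ t ∈ Ioo (-1 : ℝ) 1, HasDerivAt (fun t => φ t * (W t : ℂ))
      (((1 - (t : ℂ) ^ 2) * φ' t + (((β : ℂ) - α) - ((α : ℂ) + β + 2) * t) * φ t) *
        (wt α β t : ℂ)) t := by
    intro t ht
    refine ((hd t ht).mul (hWd t ht).ofReal_comp).congr_deriv ?_
    rw [hWw t ht]
    push_cast
    ring
  have hint : IntervalIntegrable (fun t : ℝ => ((1 - (t : ℂ) ^ 2) * φ' t +
      (((β : ℂ) - α) - ((α : ℂ) + β + 2) * t) * φ t) * (wt α β t : ℂ)) volume (-1) 1 := by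
    refine cw_int hα hβ (ContinuousOn.add (ContinuousOn.mul (by fun_prop) hφ')
      (ContinuousOn.mul (by fun_prop) hφ))
  have h := intervalIntegral.integral_eq_sub_of_hasDerivAt_of_le (by norm_num : (-1 : ℝ) ≤ 1)
    (hφ.mul hWc) hFd hint
  rw [h]
  have w1 : W 1 = 0 := by
    simp only [hW, sub_self]
    rw [Real.zero_rpow (by linarith), zero_mul]
  have w2 : W (-1) = 0 := by
    simp only [hW]
    rw [show (1 : ℝ) + -1 = 0 by norm_num, Real.zero_rpow (by linarith : β + 1 ≠ 0), mul_zero]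
  show φ 1 * (W 1 : ℂ) - φ (-1) * (W (-1) : ℂ) = 0
  rw [w1, w2]
  simp

theorem evalC_cont (v : ℂ[X]) : Continuous fun t : ℝ => v.eval (t : ℂ) :=
  v.continuous.comp Complex.continuous_ofReal

theorem evalC_deriv (v : ℂ[X]) (t : ℝ) :
    HasDerivAt (fun t : ℝ => v.eval (t : ℂ)) ((derivative v).eval (t : ℂ)) t :=
  (v.hasDerivAt (t : ℂ)).comp_ofReal

theorem byp : S_BYP := by
  intro α β hα hβ u
  have h := ibp hα hβ (evalC_cont u).continuousOn (evalC_cont (derivative u)).continuousOn
    (fun t _ => evalC_deriv u t)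
  unfold mu dd
  refine Eq.trans (intervalIntegral.integral_congr fun t _ => ?_) h
  simp only [eval_add, eval_mul, eval_sub, eval_one, eval_pow, eval_X, eval_C]

theorem mu1 : S_MU1 := by
  intro α β hα hβ
  refine ⟨?_, fun u v => ?_, fun c v => ?_⟩
  · unfold mu
    simp only [eval_one, one_mul]
    rw [intervalIntegral.integral_ofReal]
    have h := intervalIntegral.intervalIntegral_pos_of_pos_on (wt_int hα hβ)
      (fun t ht => wt_pos ht) (by norm_num)
    exact_mod_cast h.ne'
  · unfold mu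
    rw [← intervalIntegral.integral_add (cw_int hα hβ (evalC_cont u).continuousOn)
      (cw_int hα hβ (evalC_cont v).continuousOn)]
    refine intervalIntegral.integral_congr fun t _ => ?_
    simp only [eval_add]
    ring
  · unfold mu
    rw [← intervalIntegral.integral_const_mul]
    refine intervalIntegral.integral_congr fun t _ => ?_
    simp only [eval_mul, eval_C]
    ring

theorem G_int {α β : ℝ} (hα : -1 < α) (hβ : -1 < β) (f v : ℂ[X]) {z : ℂ}
    (hz : ∀ t ∈ Icc (-1 : ℝ) 1, z ≠ f.eval (t : ℂ)) :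
    IntervalIntegrable (fun t : ℝ => v.eval (t : ℂ) * (wt α β t : ℂ) / (z - f.eval (t : ℂ)))
      volume (-1) 1 := by
  have h : ContinuousOn (fun t : ℝ => v.eval (t : ℂ) / (z - f.eval (t : ℂ))) (Icc (-1) 1) :=
    (evalC_cont v).continuousOn.div (continuous_const.sub (evalC_cont f)).continuousOn
      fun t ht => sub_ne_zero.2 (hz t ht)
  refine (cw_int hα hβ h).congr fun t _ => ?_
  ring

theorem galg : S_GALG := by
  intro α β hα hβ f z hz
  refine ⟨fun v => ?_, fun u v => ?_, fun c v => ?_⟩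
  · unfold G mu
    rw [← intervalIntegral.integral_const_mul,
      ← intervalIntegral.integral_sub ((G_int hα hβ f v hz).const_mul z)
        (cw_int hα hβ (evalC_cont v).continuousOn)]
    refine intervalIntegral.integral_congr fun t ht => ?_
    rw [uIcc_of_le (by norm_num)] at ht
    have h := sub_ne_zero.2 (hz t ht)
    simp only [eval_mul]
    field_simp
    ring
  · unfold G
    rw [← intervalIntegral.integral_add (G_int hα hβ f u hz) (G_int hα hβ f v hz)]
    refine intervalIntegral.integral_congr fun t _ => ?_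
    simp only [eval_add]
    ring
  · unfold G
    rw [← intervalIntegral.integral_const_mul]
    refine intervalIntegral.integral_congr fun t _ => ?_
    simp only [eval_mul, eval_C]
    ring

end Run7.h587.IM
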