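import Pool.Agent.Run7.h587.IM.Base

/-!
# Pieces GDER and LIM
-/

set_option autoImplicit false

open Polynomial Filter Topology MeasureTheory Set

namespace Run7.h587.IM

open Run7.h163.IM

/-- the distance of `z` from the curve -/
theorem dist_curve (f : ℂ[X]) {z : ℂ} (hz : ∀ t ∈ Icc (-1 : ℝ) 1, z ≠ f.eval (t : ℂ)) :
    ∃ δ > (0 : ℝ), ∀ t ∈ Icc (-1 : ℝ) 1, 2 * δ ≤ ‖z - f.eval (t : ℂ)‖ := by
  have hc : ContinuousOn (fun t : ℝ => ‖z - f.eval (t : ℂ)‖) (Icc (-1 : ℝ) 1) :=
    (continuous_norm.comp (continuous_const.sub (evalC_cont f))).continuousOn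
  obtain ⟨t₀, ht₀, h⟩ := isCompact_Icc.exists_isMinOn ⟨(0 : ℝ), by norm_num, by norm_num⟩ hc
  have hpos : 0 < ‖z - f.eval (t₀ : ℂ)‖ := norm_pos_iff.2 (sub_ne_zero.2 (hz t₀ ht₀))
  refine ⟨‖z - f.eval (t₀ : ℂ)‖ / 2, by linarith, fun t ht => ?_⟩
  have := h ht
  simp only [Set.mem_ofPred_eq] at this
  linarith

theorem near {f : ℂ[X]} {z x : ℂ} {δ : ℝ} (h : ∀ t ∈ Icc (-1 : ℝ) 1, 2 * δ ≤ ‖z - f.eval (t : ℂ)‖)
    (hx : x ∈ Metric.ball z δ) {t : ℝ} (ht : t ∈ Icc (-1 : ℝ) 1) :
    δ ≤ ‖x - f.eval (t : ℂ)‖ := by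
  rw [Metric.mem_ball, dist_eq_norm] at hx
  have h1 := h t ht
  have h2 : ‖z - f.eval (t : ℂ)‖ ≤ ‖x - f.eval (t : ℂ)‖ + ‖x - z‖ := by
    have e : z - f.eval (t : ℂ) = (x - f.eval (t : ℂ)) - (x - z) := by ring
    rw [e]
    exact norm_sub_le _ _
  linarith

theorem gder : S_GDER := by
  intro α β hα hβ f u z hz
  obtain ⟨δ, hδ, hd⟩ := dist_curve f hz
  set v : ℂ[X] := (1 - X ^ 2) * derivative f * u with hv
  have hz' : ∀ x ∈ Metric.ball z δ, ∀ t ∈ Icc (-1 : ℝ) 1, x ≠ f.eval (t : ℂ) := by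
    intro x hx t ht
    have := near hd hx ht
    exact sub_ne_zero.1 (norm_pos_iff.1 (hδ.trans_le this))
  have hcont : ContinuousOn (fun t : ℝ => v.eval (t : ℂ) / (z - f.eval (t : ℂ)) ^ 2) (Icc (-1) 1) :=
    (evalC_cont v).continuousOn.div ((continuous_const.sub (evalC_cont f)).pow 2).continuousOn
      fun t ht => pow_ne_zero 2 (sub_ne_zero.2 (hz t ht))
  have hint' : IntervalIntegrable (fun t : ℝ => -(v.eval (t : ℂ) * (wt α β t : ℂ)) /
      (z - f.eval (t : ℂ)) ^ 2) volume (-1) 1 := by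
    refine (cw_int hα hβ hcont).neg.congr fun t _ => ?_
    simp only [Pi.neg_apply]
    ring
  have hmain := intervalIntegral.hasDerivAt_integral_of_dominated_loc_of_deriv_le
    (μ := volume) (a := -1) (b := 1) (x₀ := z) (s := Metric.ball z δ)
    (F := fun x t => v.eval (t : ℂ) * (wt α β t : ℂ) / (x - f.eval (t : ℂ)))
    (F' := fun x t => -(v.eval (t : ℂ) * (wt α β t : ℂ)) / (x - f.eval (t : ℂ)) ^ 2)
    (bound := fun t => ‖v.eval (t : ℂ) * (wt α β t : ℂ)‖ / δ ^ 2)
    (Metric.ball_mem_nhds z hδ)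
    (by
      filter_upwards [Metric.ball_mem_nhds z hδ] with x hx
      exact (intervalIntegrable_iff.1 (G_int hα hβ f v (hz' x hx))).aestronglyMeasurable)
    (G_int hα hβ f v hz)
    (intervalIntegrable_iff.1 hint').aestronglyMeasurable
    (ae_of_all _ fun t ht x hx => by
      have ht' : t ∈ Icc (-1 : ℝ) 1 := by
        rw [uIoc_of_le (by norm_num)] at ht
        exact ⟨ht.1.le, ht.2⟩
      have h1 := near hd hx ht'
      rw [norm_div, norm_neg, norm_pow]
      exact div_le_div_of_nonneg_left (norm_nonneg _) (by positivity)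
        (pow_le_pow_left₀ hδ.le h1 2))
    ((cw_int hα hβ (evalC_cont v).continuousOn).norm.div_const _)
    (ae_of_all _ fun t ht x hx => by
      have ht' : t ∈ Icc (-1 : ℝ) 1 := by
        rw [uIoc_of_le (by norm_num)] at ht
        exact ⟨ht.1.le, ht.2⟩
      have h1 := sub_ne_zero.2 (hz' x hx t ht')
      have h2 : HasDerivAt (fun x : ℂ => x - f.eval (t : ℂ)) 1 x := (hasDerivAt_id x).sub_const _
      have h3 := (h2.inv h1).const_mul (v.eval (t : ℂ) * (wt α β t : ℂ))
      refine (h3.congr_deriv ?_).congr_of_eventuallyEq (Eventually.of_forall fun y => ?_)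
      · field_simp
      · simp only [div_eq_mul_inv, Pi.inv_apply])
  have hG := hmain.2
  have heq : ∫ t in (-1 : ℝ)..1, -(v.eval (t : ℂ) * (wt α β t : ℂ)) / (z - f.eval (t : ℂ)) ^ 2 =
      G α β f (dd α β u) z := by
    have hφ : ContinuousOn (fun t : ℝ => u.eval (t : ℂ) / (z - f.eval (t : ℂ))) (Icc (-1) 1) :=
      (evalC_cont u).continuousOn.div (continuous_const.sub (evalC_cont f)).continuousOn
        fun t ht => sub_ne_zero.2 (hz t ht)
    have hφ' : ContinuousOn (fun t : ℝ => (derivative u).eval (t : ℂ) / (z - f.eval (t : ℂ)) +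
        u.eval (t : ℂ) * (derivative f).eval (t : ℂ) / (z - f.eval (t : ℂ)) ^ 2) (Icc (-1) 1) := by
      refine ContinuousOn.add ?_ ?_
      · exact (evalC_cont _).continuousOn.div (continuous_const.sub (evalC_cont f)).continuousOn
          fun t ht => sub_ne_zero.2 (hz t ht)
      · exact ((evalC_cont _).mul (evalC_cont _)).continuousOn.div
          ((continuous_const.sub (evalC_cont f)).pow 2).continuousOn
          fun t ht => pow_ne_zero 2 (sub_ne_zero.2 (hz t ht))
    have h := ibp hα hβ hφ hφ' (fun t ht => by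
      have h1 := sub_ne_zero.2 (hz t ⟨ht.1.le, ht.2.le⟩)
      have h2 : HasDerivAt (fun t : ℝ => z - f.eval (t : ℂ)) (-(derivative f).eval (t : ℂ)) t :=
        (evalC_deriv f t).const_sub z
      refine ((evalC_deriv u t).div h2 h1).congr_deriv ?_
      field_simp
      ring)
    have hint2 : IntervalIntegrable (fun t : ℝ => (dd α β u).eval (t : ℂ) * (wt α β t : ℂ) /
        (z - f.eval (t : ℂ))) volume (-1) 1 := G_int hα hβ f _ hz
    have e : ∫ t in (-1 : ℝ)..1, ((dd α β u).eval (t : ℂ) * (wt α β t : ℂ) /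
        (z - f.eval (t : ℂ)) - -(v.eval (t : ℂ) * (wt α β t : ℂ)) / (z - f.eval (t : ℂ)) ^ 2) = 0 := by
      refine Eq.trans (intervalIntegral.integral_congr fun t ht => ?_) h
      rw [uIcc_of_le (by norm_num)] at ht
      have h1 := sub_ne_zero.2 (hz t ht)
      simp only [hv, dd, eval_add, eval_mul, eval_sub, eval_one, eval_pow, eval_X, eval_C]
      field_simp
      ring
    rw [intervalIntegral.integral_sub hint2 hint', sub_eq_zero] at e
    exact e.symm
  rw [heq] at hG
  exact hG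

theorem lim : S_LIM := by
  intro α β hα hβ f hf e c ε hc hε h
  have hne : ∀ r : ℝ, 0 < r → r < ε → ∀ t ∈ Icc (-1 : ℝ) 1, (r : ℂ) * e ≠ f.eval (t : ℂ) := by
    intro r hr hrε t ht
    have h1 := h r hr hrε t ht
    have h2 : 0 < c * (r + ‖f.eval (t : ℂ)‖) := by positivity
    exact sub_ne_zero.1 (norm_pos_iff.1 (h2.trans_le h1))
  have hev : ∀ᶠ r : ℝ in 𝓝[>] 0, 0 < r ∧ r < ε := by
    filter_upwards [Ioo_mem_nhdsGT hε] with r hr using hr
  have key : Tendsto (fun r : ℝ => ∫ t in (-1 : ℝ)..1, (r : ℂ) * ((1 : ℂ[X]).eval (t : ℂ) *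
      (wt α β t : ℂ) / ((r : ℂ) * e - f.eval (t : ℂ)))) (𝓝[>] 0) (𝓝 (∫ t in (-1 : ℝ)..1, (0 : ℂ))) := by
    refine intervalIntegral.tendsto_integral_filter_of_dominated_convergence
      (fun t => wt α β t / c) ?_ ?_ ((wt_int hα hβ).div_const c) ?_
    · filter_upwards [hev] with r hr
      exact (intervalIntegrable_iff.1
        ((G_int hα hβ f 1 (hne r hr.1 hr.2)).const_mul (r : ℂ))).aestronglyMeasurable
    · filter_upwards [hev] with r hr
      refine ae_of_all _ fun t ht => ?_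
      have ht' : t ∈ Icc (-1 : ℝ) 1 := by
        rw [uIoc_of_le (by norm_num)] at ht
        exact ⟨ht.1.le, ht.2⟩
      have h1 := h r hr.1 hr.2 t ht'
      have h2 : c * r ≤ ‖(r : ℂ) * e - f.eval (t : ℂ)‖ := by
        refine le_trans ?_ h1
        have := norm_nonneg (f.eval (t : ℂ))
        nlinarith
      have h3 : 0 < c * r := mul_pos hc hr.1
      have hw := wt_nonneg (α := α) (β := β) ht'
      rw [eval_one, one_mul, norm_mul, norm_div, Complex.norm_real, Complex.norm_real,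
        Real.norm_of_nonneg hr.1.le, Real.norm_of_nonneg hw, mul_div_assoc', div_le_div_iff₀
        (h3.trans_le h2) hc]
      calc r * wt α β t * c = wt α β t * (c * r) := by ring
        _ ≤ wt α β t * ‖(r : ℂ) * e - f.eval (t : ℂ)‖ := mul_le_mul_of_nonneg_left h2 hw
    · have hfin : {t : ℝ | f.eval (t : ℂ) = 0}.Finite := by
        refine Set.Finite.of_finite_image (f := fun t : ℝ => (t : ℂ)) ?_
          Complex.ofReal_injective.injOn
        refine f.roots.toFinset.finite_toSet.subset ?_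
        rintro x ⟨t, ht, rfl⟩
        rw [Finset.mem_coe, Multiset.mem_toFinset, mem_roots hf]
        exact ht
      have hae : ∀ᵐ t : ℝ, t ∉ {t : ℝ | f.eval (t : ℂ) = 0} :=
        measure_eq_zero_iff_ae_notMem.1 (hfin.measure_zero volume)
      filter_upwards [hae] with t ht htI
      have ht0 : f.eval (t : ℂ) ≠ 0 := ht
      have h1 : Tendsto (fun r : ℝ => (r : ℂ) * ((1 : ℂ[X]).eval (t : ℂ) *
          (wt α β t : ℂ) / ((r : ℂ) * e - f.eval (t : ℂ)))) (𝓝 0)
          (𝓝 (((0 : ℝ) : ℂ) * ((1 : ℂ[X]).eval (t : ℂ) *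
          (wt α β t : ℂ) / (((0 : ℝ) : ℂ) * e - f.eval (t : ℂ))))) := by
        refine ContinuousAt.tendsto (x := (0 : ℝ)) ?_
        refine Complex.continuous_ofReal.continuousAt.mul (continuousAt_const.div
          ((Complex.continuous_ofReal.continuousAt.mul continuousAt_const).sub
            continuousAt_const) ?_)
        rw [Complex.ofReal_zero, zero_mul, zero_sub]
        exact neg_ne_zero.2 ht0
      rw [Complex.ofReal_zero, zero_mul] at h1
      exact h1.mono_left nhdsWithin_le_nhds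
  rw [intervalIntegral.integral_zero] at key
  refine key.congr fun r => ?_
  unfold G
  rw [intervalIntegral.integral_const_mul]

end Run7.h587.IM
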